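import Pool.Agent.Helper58.FX.Defs2
import Pool.Agent.Helper91.TTT.Exotic

set_option autoImplicit false
open Filter Topology Helper17 Helper17.FU Helper17.FUGroup Helper91.TTT
open scoped ComplexOrder ComplexConjugate InnerProductSpace

/-! Project FX, CV-6: periods of finite dimensional traces; the restrictions to translations. -/

namespace Helper40.FX

variable {s2 s3 t : Equiv.Perm ℚ}

/-- CV-6 -/
theorem fd_period (h2 : ∀ x : ℚ, s2 x = 2 * x) (h3 : ∀ x : ℚ, s3 x = 3 * x)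
    (ht : ∀ x : ℚ, t x = x + 1) {τ : GG s2 s3 t} (hτ : (τ : Equiv.Perm ℚ) = t)
    {φ : GG s2 s3 t → ℂ} (hφ : φ ∈ Set.extremePoints ℝ (TR (GG s2 s3 t)))
    (hfd : FiniteDimensional ℂ (Submodule.span ℂ {F : GG s2 s3 t → ℂ | ∃ n : GG s2 s3 t,
      IsTr n ∧ F = fun x => φ (n * x)})) :
    ∃ q : ℕ, 1 ≤ q ∧ φ (τ ^ (q : ℤ)) = 1 := by
  by_contra hcon
  have hφ1 : φ 1 = 1 := hφ.1.1
  have hFφ : Fact (PD φ) := ⟨hφ.1.2.2⟩
  obtain ⟨σ2, σ3, τ', hσ2, hσ3, hτ', e2, e3, ecomm, hgen⟩ := relations h2 h3 ht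
  have hττ' : τ' = τ := Subtype.ext (by rw [hτ', hτ])
  rw [hττ'] at e2 e3 hgen
  -- no nontrivial power is in the kernel
  have hno : ∀ e : ℤ, e ≠ 0 → φ (τ ^ e) ≠ 1 := by
    intro e he h1
    rcases lt_or_gt_of_ne he with hlt | hgt
    · apply hcon
      refine ⟨(-e).toNat, by omega, ?_⟩
      rw [Int.toNat_of_nonneg (by omega), zpow_neg]
      have h5 := pd_herm (φ := φ) hφ.1.2.2 (τ ^ e)
      rw [h1] at h5
      rw [h5]
      simp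
    · apply hcon
      refine ⟨e.toNat, by omega, ?_⟩
      rw [Int.toNat_of_nonneg (by omega)]
      exact h1
  have hW : ∀ m : ℤ, m ≠ 0 →
      Tendsto (fun L : ℕ => WW φ (τ ^ m) L / (L : ℝ) ^ 2) atTop (nhds 0) := by
    intro m hm
    have hs2 : σ2 * τ ^ m * σ2⁻¹ = (τ ^ m) ^ (2 : ℤ) := by
      rw [Helper17.FU.conj_pow e2, ← zpow_mul, mul_comm]
    have hs3 : σ3 * τ ^ m * σ3⁻¹ = (τ ^ m) ^ (3 : ℤ) := by
      rw [conj_pow3 e3, ← zpow_mul, mul_comm]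
    obtain ⟨μ, hμp, hμ⟩ := herglotz (rf_pdz (φ := φ) (τ ^ m) 1)
      (by unfold rf; simp [hφ1])
    have hμ' : ∀ n : ℤ, ∫ x, fourier n x ∂μ = φ ((τ ^ m) ^ n) := by
      intro n
      rw [hμ n]; unfold rf; rw [one_mul]
    by_cases hat : ∀ x : Helper91.TTT.Tor, μ {x} = 0
    · exact wiener (τ ^ m) μ hμ' hat
    · exfalso
      push Not at hat
      obtain ⟨x0, hx0⟩ := hat
      obtain ⟨k, hk, hker⟩ := atom_kernel hφ σ2 σ3 τ (τ ^ m) hs2 hs3 hgen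
        (by intro j; rw [← zpow_mul]; group) μ hμ' hx0
      have hk6 : (6 : ℤ) ^ k - 1 ≠ 0 := by
        have : (6 : ℤ) ^ 1 ≤ 6 ^ k := pow_le_pow_right₀ (by norm_num) hk
        omega
      rw [← zpow_mul] at hker
      exact hno _ (mul_ne_zero hm hk6) hker
  refine not_fd hφ.1 τ hW {n | IsTr n} (fun n => ⟨n, fun x => ?_⟩) hfd
  rw [Subgroup.coe_zpow, hτ, t_zpow ht]

/-- CV-6 -/
theorem ipd_erg (h2 : ∀ x : ℚ, s2 x = 2 * x) (h3 : ∀ x : ℚ, s3 x = 3 * x)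
    (ht : ∀ x : ℚ, t x = x + 1) {τ : GG s2 s3 t} (hτ : (τ : Equiv.Perm ℚ) = t)
    {φ : GG s2 s3 t → ℂ} (hφ : φ ∈ Set.extremePoints ℝ (TR (GG s2 s3 t))) (k : ℤ) :
    Helper58.FX.IPD (fun n : ℤ => φ (τ ^ (k * n))) ∧
      Helper58.FX.Erg (fun n : ℤ => φ (τ ^ (k * n))) := by
  have hφ1 : φ 1 = 1 := hφ.1.1
  have hFφ : Fact (PD φ) := ⟨hφ.1.2.2⟩
  obtain ⟨σ2, σ3, τ', hσ2, hσ3, hτ', e2, e3, ecomm, hgen⟩ := relations h2 h3 ht
  have hττ' : τ' = τ := Subtype.ext (by rw [hτ', hτ])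
  rw [hττ'] at e2 e3 hgen
  refine ⟨⟨?_, ?_, ?_, ?_⟩, ?_⟩
  · exact rf_pdz (φ := φ) τ k
  · simp [hφ1]
  · intro n
    show φ (τ ^ (k * (2 * n))) = φ (τ ^ (k * n))
    rw [show k * (2 * n) = 2 * (k * n) by ring, ← Helper17.FU.conj_pow e2, hφ.1.2.1]
  · intro n
    show φ (τ ^ (k * (3 * n))) = φ (τ ^ (k * n))
    rw [show k * (3 * n) = 3 * (k * n) by ring, ← conj_pow3 e3, hφ.1.2.1]
  · intro m
    have h := ergodic_part hφ σ2 σ3 τ e2 e3 ecomm hgen (k * m)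
    have e : (fun j : ℤ => (fun n : ℤ => φ (τ ^ (k * n))) (m * j)) = rf φ τ (k * m) := by
      funext j
      unfold rf
      show φ (τ ^ (k * (m * j))) = φ (τ ^ (k * m * j))
      rw [mul_assoc]
    rw [e]
    have e' : rf φ τ (k * m) 1 = φ (τ ^ (k * m)) := by
      unfold rf
      rw [mul_one]
    rw [e'] at h
    exact h

end Helper40.FX
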